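import Pool.Agent.helper82.UN.SpecP

/-!
# Project UN, block H, row PFT: the Fourier transform of the theta terms
-/

set_option autoImplicit false

open NumberField Complex MeasureTheory nonZeroDivisors

namespace Pool.Agent.UN

section fields

variable {K : Type} [Field K] [NumberField K]

theorem PFT_cw_add (x x' : mixedEmbedding.mixedSpace K) (w : InfinitePlace K) : cw (x + x') w = cw x w + cw x' w := by
  classical
  unfold cw
  by_cases h : w.IsReal
  · rw [dif_pos h, dif_pos h, dif_pos h]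
    rw [Prod.fst_add, Pi.add_apply]
    push_cast
    rfl
  · rw [dif_neg h, dif_neg h, dif_neg h]
    rfl

theorem PFT_cw_smul (t : ℝ) (x : mixedEmbedding.mixedSpace K) (w : InfinitePlace K) : cw (t • x) w = (t : ℂ) * cw x w := by
  classical
  unfold cw
  by_cases h : w.IsReal
  · rw [dif_pos h, dif_pos h]
    rw [Prod.smul_fst, Pi.smul_apply, smul_eq_mul]
    push_cast
    rfl
  · rw [dif_neg h, dif_neg h]
    rw [Prod.smul_snd, Pi.smul_apply, Complex.real_smul]

theorem PFT_cw_sum {ι : Type} [Fintype ι] (t : ι → ℝ) (b : ι → mixedEmbedding.mixedSpace K) (w : InfinitePlace K) :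
    cw (∑ i, t i • b i) w = ∑ i, (t i : ℂ) * cw (b i) w := by
  classical
  have h0 : cw (0 : mixedEmbedding.mixedSpace K) w = 0 := by
    have h1 := PFT_cw_smul 0 (0 : mixedEmbedding.mixedSpace K) w
    rw [zero_smul] at h1
    rw [h1]
    simp
  have key : ∀ s : Finset ι, cw (∑ i ∈ s, t i • b i) w = ∑ i ∈ s, (t i : ℂ) * cw (b i) w := by
    intro s
    induction s using Finset.induction_on with
    | empty => rw [Finset.sum_empty, Finset.sum_empty, h0]
    | insert a s ha ih => rw [Finset.sum_insert ha, Finset.sum_insert ha, PFT_cw_add, PFT_cw_smul, ih]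
  exact key Finset.univ

theorem PFT_cw_emb (a : K) (w : InfinitePlace K) : cw (mixedEmbedding K a) w = w.embedding a := by
  classical
  unfold cw
  by_cases h : w.IsReal
  · rw [dif_pos h, mixedEmbedding.mixedEmbedding_apply_isReal]
    exact InfinitePlace.embedding_of_isReal_apply h a
  · rw [dif_neg h]
    exact mixedEmbedding.mixedEmbedding_apply_isComplex K a _

theorem PFT_xw {ι : Type} [Fintype ι] (ω : ι → K) (r : K) (t : ι → ℝ) :
    xw ω r t = cw (∑ i, t i • mixedEmbedding K (ω i) + mixedEmbedding K r) := by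
  funext w
  rw [PFT_cw_add, PFT_cw_sum, PFT_cw_emb]
  unfold xw
  congr 1
  refine Finset.sum_congr rfl fun i _ => ?_
  rw [PFT_cw_emb]

theorem PFT_tr (hPTR : PTR_stmt) {ι : Type} [Fintype ι] (ω : ι → K) (r ξ : K) (t : ι → ℝ) (k : ι → ℤ)
    (hk : ∀ i, Algebra.trace ℚ K (ξ * ω i) = k i) :
    ∑ w : InfinitePlace K, (w.mult : ℝ) * (w.embedding ξ * xw ω r t w).re =
      ∑ i, (k i : ℝ) * t i + ((Algebra.trace ℚ K (ξ * r) : ℚ) : ℝ) := by
  have h1 : ∀ w : InfinitePlace K, (w.mult : ℝ) * (w.embedding ξ * xw ω r t w).re =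
      ∑ i, t i * ((w.mult : ℝ) * (w.embedding (ξ * ω i)).re) + (w.mult : ℝ) * (w.embedding (ξ * r)).re := by
    intro w
    unfold xw
    rw [mul_add, Finset.mul_sum, Complex.add_re, Complex.re_sum, mul_add, Finset.mul_sum, map_mul w.embedding ξ r]
    congr 1
    refine Finset.sum_congr rfl fun i _ => ?_
    have h2 : w.embedding ξ * ((t i : ℂ) * w.embedding (ω i)) = (t i : ℂ) * w.embedding (ξ * ω i) := by
      rw [map_mul]
      ring
    rw [h2, Complex.re_ofReal_mul]
    ring
  rw [Finset.sum_congr rfl (fun w _ => h1 w), Finset.sum_add_distrib, ← hPTR K (ξ * r), Finset.sum_comm]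
  congr 1
  refine Finset.sum_congr rfl fun i _ => ?_
  rw [← Finset.mul_sum, ← hPTR K (ξ * ω i), hk i]
  push_cast
  ring

end fields

theorem PFT_ee_add (a b : ℝ) : ee (a + b) = ee a * ee b := by
  unfold ee
  rw [← Complex.exp_add]
  congr 1
  push_cast
  ring

open scoped Classical in
theorem PFT (hPCH : PCH_stmt) (hPIV : PIV_stmt) (hPTR : PTR_stmt) (hPVO : PVO_stmt) : PFT_stmt := by
  intro K _ _ J A hA r m e y hm he he' hy k ξ hk
  obtain ⟨H, hH⟩ : ∃ H : mixedEmbedding.mixedSpace K → ℂ, H = fun x => Pf m e (cw x) * (Gf y (cw x) : ℂ) *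
      ee (-(∑ w : InfinitePlace K, (w.mult : ℝ) * (w.embedding ξ * cw x w).re)) := ⟨_, rfl⟩
  have hpt : ∀ t : Module.Free.ChooseBasisIndex ℤ A → ℝ,
      ff m e y (fun i => basisOfFractionalIdeal K A i) r t * ee (-(∑ i, (k i : ℝ) * t i)) =
      (fun v => H (v + mixedEmbedding K r) * et (ξ * r)) (∑ i, t i • mixedEmbedding.fractionalIdealLatticeBasis K A i) := by
    intro t
    have h1 : ∑ i, t i • mixedEmbedding.fractionalIdealLatticeBasis K A i =
        ∑ i, t i • mixedEmbedding K (basisOfFractionalIdeal K A i) := by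
      refine Finset.sum_congr rfl fun i _ => ?_
      rw [mixedEmbedding.fractionalIdealLatticeBasis_apply]
    have h2 := PFT_tr hPTR (fun i => basisOfFractionalIdeal K A i) r ξ t k hk
    have h3 := PFT_xw (fun i => basisOfFractionalIdeal K A i) r t
    simp only []
    rw [h1, hH]
    unfold ff et
    simp only []
    rw [← h3, h2, mul_assoc (Pf m e _ * _) (ee _) (ee _), ← PFT_ee_add]
    congr 2
    ring
  have h0 := hPCH (mixedEmbedding.mixedSpace K) volume _ (mixedEmbedding.fractionalIdealLatticeBasis K A)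
    (fun v => H (v + mixedEmbedding K r) * et (ξ * r))
  unfold FT
  refine ((integral_congr_ae (Filter.Eventually.of_forall hpt)).trans h0).trans ?_
  have h4 : ∫ v : mixedEmbedding.mixedSpace K, H (v + mixedEmbedding K r) * et (ξ * r) =
      (∫ v : mixedEmbedding.mixedSpace K, H v) * et (ξ * r) := by
    rw [integral_mul_const, integral_add_right_eq_self H]
  rw [h4, hPVO K J A hA, hH, hPIV K m e y ξ hm he he' hy]
  have h5 : ((1 / 2 : ℂ)) ^ (InfinitePlace.nrComplexPlaces K) ≠ 0 := pow_ne_zero _ (by norm_num)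
  have h6 : ((((1 / 2 : ℝ) ^ (InfinitePlace.nrComplexPlaces K) * ((Dc K) ^ (1 / 2 : ℝ) * Nm J))⁻¹ : ℝ) : ℂ) =
      (((1 / 2 : ℂ)) ^ (InfinitePlace.nrComplexPlaces K))⁻¹ * (((Dc K) ^ (1 / 2 : ℝ) * Nm J : ℝ) : ℂ)⁻¹ := by
    push_cast
    rw [mul_inv]
  rw [h6]
  field_simp

end Pool.Agent.UN
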