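import Pool.Agent.helper82.UN.SpecP

/-!
# Project UN, block H, row PGZ: the complex Gaussian with a linear term
-/

set_option autoImplicit false

open NumberField Complex MeasureTheory nonZeroDivisors

namespace Pool.Agent.UN

/-- the integrand as a product -/
theorem PGZ_pt (y : ℝ) (ξ l : ℂ) (p : ℝ × ℝ) :
    (fun z : ℂ => Complex.exp (l * z) * (Real.exp (-(Real.pi * 2 * y * ‖z‖ ^ 2)) : ℂ) * ee (-(2 * (ξ * z).re)))
      (Complex.measurableEquivRealProd.symm p) =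
    Complex.exp ((-(2 * Real.pi * y : ℝ) : ℂ) * (p.1 : ℂ) ^ 2 + (l - 4 * Real.pi * I * (ξ.re : ℂ)) * (p.1 : ℂ) + 0) *
      Complex.exp ((-(2 * Real.pi * y : ℝ) : ℂ) * (p.2 : ℂ) ^ 2 + (I * l + 4 * Real.pi * I * (ξ.im : ℂ)) * (p.2 : ℂ) + 0) := by
  have hz : Complex.measurableEquivRealProd.symm p = (p.1 : ℂ) + (p.2 : ℂ) * I := by
    apply Complex.ext
    · simp
    · simp
  simp only []
  rw [hz]
  have h1 : ‖(p.1 : ℂ) + (p.2 : ℂ) * I‖ ^ 2 = p.1 ^ 2 + p.2 ^ 2 := by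
    rw [← Complex.normSq_eq_norm_sq, Complex.normSq_add_mul_I]
  have h2 : (ξ * ((p.1 : ℂ) + (p.2 : ℂ) * I)).re = ξ.re * p.1 - ξ.im * p.2 := by
    simp [Complex.mul_re]
  rw [h1, h2]
  unfold ee
  rw [Complex.ofReal_exp, ← Complex.exp_add, ← Complex.exp_add, ← Complex.exp_add]
  congr 1
  push_cast
  ring

theorem PGZ : PGZ_stmt := by
  intro y ξ l hy
  have hpi := Real.pi_pos
  have hb : 0 < (((2 * Real.pi * y : ℝ)) : ℂ).re := by
    rw [Complex.ofReal_re]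
    positivity
  have hb' : (-(((2 * Real.pi * y : ℝ)) : ℂ)).re < 0 := by
    rw [Complex.neg_re]
    linarith
  obtain ⟨f, hf⟩ : ∃ f : ℂ → ℂ, f = fun z : ℂ => Complex.exp (l * z) * (Real.exp (-(Real.pi * 2 * y * ‖z‖ ^ 2)) : ℂ) *
    ee (-(2 * (ξ * z).re)) := ⟨_, rfl⟩
  obtain ⟨A, hA⟩ : ∃ A : ℝ → ℂ, A = fun u : ℝ => Complex.exp ((-(2 * Real.pi * y : ℝ) : ℂ) * (u : ℂ) ^ 2 +
    (l - 4 * Real.pi * I * (ξ.re : ℂ)) * (u : ℂ) + 0) := ⟨_, rfl⟩
  obtain ⟨B, hB⟩ : ∃ B : ℝ → ℂ, B = fun u : ℝ => Complex.exp ((-(2 * Real.pi * y : ℝ) : ℂ) * (u : ℂ) ^ 2 +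
    (I * l + 4 * Real.pi * I * (ξ.im : ℂ)) * (u : ℂ) + 0) := ⟨_, rfl⟩
  have hpt : ∀ p : ℝ × ℝ, f (Complex.measurableEquivRealProd.symm p) = A p.1 * B p.2 := by
    intro p
    rw [hf, hA, hB]
    exact PGZ_pt y ξ l p
  have hAi : Integrable A := by
    rw [hA]
    exact integrable_cexp_quadratic hb _ _
  have hBi : Integrable B := by
    rw [hB]
    exact integrable_cexp_quadratic hb _ _
  have hmp := Complex.volume_preserving_equiv_real_prod.symm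
  have hme := Complex.measurableEquivRealProd.symm.measurableEmbedding
  rw [← hf]
  constructor
  · rw [← hmp.integrable_comp_emb hme]
    have h1 : f ∘ (Complex.measurableEquivRealProd.symm : ℝ × ℝ → ℂ) = fun p : ℝ × ℝ => A p.1 * B p.2 := funext hpt
    rw [h1]
    exact hAi.mul_prod hBi
  · have h1 : ∫ z : ℂ, f z = ∫ p : ℝ × ℝ, A p.1 * B p.2 := by
      rw [← hmp.integral_comp hme]
      exact integral_congr_ae (Filter.Eventually.of_forall hpt)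
    have h2 : ∫ p : ℝ × ℝ, A p.1 * B p.2 = (∫ u, A u) * ∫ v, B v := integral_prod_mul A B
    refine (h1.trans h2).trans ?_
    rw [hA, hB, integral_cexp_quadratic hb', integral_cexp_quadratic hb', neg_neg]
    have hc : ((Real.pi : ℂ) / ((2 * Real.pi * y : ℝ) : ℂ)) ≠ 0 := by
      have h4 : ((2 * Real.pi * y : ℝ) : ℂ) ≠ 0 := by
        exact_mod_cast (by positivity : (2 * Real.pi * y : ℝ) ≠ 0)
      exact div_ne_zero (by exact_mod_cast hpi.ne') h4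
    have h5 : ((Real.pi : ℂ) / ((2 * Real.pi * y : ℝ) : ℂ)) ^ (1 / 2 : ℂ) * ((Real.pi : ℂ) / ((2 * Real.pi * y : ℝ) : ℂ)) ^ (1 / 2 : ℂ) =
        1 / (2 * y) := by
      rw [← Complex.cpow_add _ _ hc]
      have h6 : (1 / 2 : ℂ) + 1 / 2 = 1 := by norm_num
      rw [h6, Complex.cpow_one]
      have h7 : (Real.pi : ℂ) ≠ 0 := by exact_mod_cast hpi.ne'
      have h8 : (y : ℂ) ≠ 0 := by exact_mod_cast hy.ne'
      push_cast
      field_simp
    have h9 : ∀ a b c d : ℂ, (a * b) * (a * c) = (a * a) * (b * c) := by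
      intro a b c d
      ring
    rw [h9 _ _ _ 0, h5, Complex.ofReal_exp, ← Complex.exp_add, mul_assoc (1 / (2 * (y : ℂ))) (Complex.exp _) (Complex.exp _),
      ← Complex.exp_add]
    congr 2
    have hn : ((‖ξ‖ ^ 2 : ℝ) : ℂ) = (ξ.re : ℂ) ^ 2 + (ξ.im : ℂ) ^ 2 := by
      rw [← Complex.normSq_eq_norm_sq, Complex.normSq_apply]
      push_cast
      ring
    have hcj : (starRingEnd ℂ) ξ = (ξ.re : ℂ) - (ξ.im : ℂ) * I := by
      apply Complex.ext
      · simp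
      · simp
    have h7 : (Real.pi : ℂ) ≠ 0 := by exact_mod_cast hpi.ne'
    have h8 : (y : ℂ) ≠ 0 := by exact_mod_cast hy.ne'
    have hn' : ((-(Real.pi * 2 * (1 / y) * ‖ξ‖ ^ 2) : ℝ) : ℂ) = -(Real.pi * 2 * (1 / y) * ((ξ.re : ℂ) ^ 2 + (ξ.im : ℂ) ^ 2)) := by
      rw [← hn]
      push_cast
      ring
    rw [hn', hcj]
    push_cast
    field_simp
    ring_nf
    simp only [I_sq]
    ring

end Pool.Agent.UN
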